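import Pool.Agent.Q116.IC4.Lower

set_option autoImplicit false

/-!
# The inverse Turán number of the 4-cycle (MP_9a04dc_co, Q1)

`ex⁻¹(k, C₄) = (2√2 / (3√3)) k^{3/2} + o(k^{3/2})`.
-/

namespace Pool.Agent.Results.MP_9a04dc_co.InverseTuranFourCycle

open SimpleGraph Filter Asymptotics Q116

/-- The set of numbers of edges of finite graphs `G` all of whose `F`-free subgraphs have less
than `k` edges, that is, `ex(G, F) < k`. -/
def edgeCounts {W : Type} (F : SimpleGraph W) (k : ℕ) : Set ℕ :=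
  {e | ∃ (n : ℕ) (G : SimpleGraph (Fin n)),
    (∀ H : SimpleGraph (Fin n), H ≤ G → F.Free H → H.edgeSet.ncard < k) ∧ G.edgeSet.ncard = e}

/-- The inverse Turán number `ex⁻¹(k, F) = sup {e(G) : ex(G, F) < k}`. -/
noncomputable def invTuran {W : Type} (k : ℕ) (F : SimpleGraph W) : ℕ :=
  sSup (edgeCounts F k)

theorem small_iff {n : ℕ} (G : SimpleGraph (Fin n)) (k : ℕ) :
    (∀ H : SimpleGraph (Fin n), H ≤ G → (cycleGraph 4).Free H → H.edgeSet.ncard < k) ↔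
      IC4.Small G k := by
  constructor
  · intro h H h1 h2
    exact h H h1 ((IC4.noC4_iff H).1 h2)
  · intro h H h1 h2
    exact h H h1 ((IC4.noC4_iff H).2 h2)

theorem edgeCounts_le (k : ℕ) (hk : 1 ≤ k) (e : ℕ) (he : e ∈ edgeCounts (cycleGraph 4) k) :
    e ≤ ⌊(8 * Real.sqrt k + 4) * (k : ℝ)⌋₊ := by
  classical
  obtain ⟨n, G, hG, rfl⟩ := he
  rw [small_iff] at hG
  apply Nat.le_floor
  have hk' : (1 : ℝ) ≤ k := by exact_mod_cast hk
  exact IC4.edges_le_of_degree hG le_rfl (k : ℝ) (by linarith) (fun v => by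
      exact_mod_cast (IC4.degree_lt hG v).le)

theorem bdd (k : ℕ) (hk : 1 ≤ k) : BddAbove (edgeCounts (cycleGraph 4) k) :=
  ⟨_, fun e he => edgeCounts_le k hk e he⟩

theorem nonempty (k : ℕ) (hk : 1 ≤ k) : (edgeCounts (cycleGraph 4) k).Nonempty := by
  refine ⟨0, 0, ⊥, ?_, ?_⟩
  · intro H hH _
    have : H = ⊥ := le_bot_iff.1 hH
    rw [this]
    simp
    omega
  · simp

theorem isGreatest (k : ℕ) (hk : 1 ≤ k) :
    IsGreatest (edgeCounts (cycleGraph 4) k) (invTuran k (cycleGraph 4)) :=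
  ⟨Nat.sSup_mem (nonempty k hk) (bdd k hk), fun _ he => le_csSup (bdd k hk) he⟩

theorem cc_eq : IC4.cc = 2 * Real.sqrt 2 / (3 * Real.sqrt 3) := by
  have h1 : IC4.cc ^ 2 = (2 * Real.sqrt 2 / (3 * Real.sqrt 3)) ^ 2 := by
    rw [IC4.cc_sq, div_pow, mul_pow, mul_pow, Real.sq_sqrt (by norm_num),
      Real.sq_sqrt (by norm_num)]
    norm_num
  exact (pow_left_inj₀ IC4.cc_nonneg (by positivity) (by norm_num)).1 h1

theorem rpow_eq (k : ℕ) : (k : ℝ) ^ (3 / 2 : ℝ) = k * Real.sqrt k := by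
  rcases Nat.eq_zero_or_pos k with rfl | hk
  · rw [Nat.cast_zero, Real.zero_rpow (by norm_num), zero_mul]
  · have hk' : (0 : ℝ) < k := by exact_mod_cast hk
    rw [show (3 / 2 : ℝ) = 1 + 1 / 2 by norm_num, Real.rpow_add hk', Real.rpow_one,
      Real.sqrt_eq_rpow]

/-- **Q1 of MP_9a04dc_co.** The supremum defining `ex⁻¹(k, C₄)` is an attained maximum for every
`k ≥ 1`, and `ex⁻¹(k, C₄) = (2√2 / (3√3)) k^{3/2} + o(k^{3/2})`. -/
theorem result :
    (∀ k : ℕ, 1 ≤ k → IsGreatest (edgeCounts (cycleGraph 4) k) (invTuran k (cycleGraph 4))) ∧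
    (fun k : ℕ => (invTuran k (cycleGraph 4) : ℝ) -
        2 * Real.sqrt 2 / (3 * Real.sqrt 3) * (k : ℝ) ^ (3 / 2 : ℝ))
      =o[atTop] (fun k : ℕ => (k : ℝ) ^ (3 / 2 : ℝ)) := by
  refine ⟨fun k hk => isGreatest k hk, ?_⟩
  rw [Asymptotics.isLittleO_iff]
  intro c hc
  obtain ⟨k3, h3⟩ := IC4.upper c hc
  obtain ⟨k4, h4⟩ := IC4.lower c hc
  filter_upwards [eventually_ge_atTop (max (max k3 k4) 1)] with k hk
  have hk3 : k3 ≤ k := (le_max_left _ _).trans ((le_max_left _ _).trans hk)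
  have hk4 : k4 ≤ k := (le_max_right _ _).trans ((le_max_left _ _).trans hk)
  have hk1 : 1 ≤ k := (le_max_right _ _).trans hk
  rw [rpow_eq, ← cc_eq]
  have hq0 : (0 : ℝ) ≤ k * Real.sqrt k := by positivity
  have hup : (invTuran k (cycleGraph 4) : ℝ) ≤ (IC4.cc + c) * (k * Real.sqrt k) := by
    obtain ⟨n, G, hG, he⟩ := (isGreatest k hk1).1
    rw [← he]
    exact h3 k hk3 (Fin n) G ((small_iff G k).1 hG)
  have hlo : (IC4.cc - c) * (k * Real.sqrt k) ≤ (invTuran k (cycleGraph 4) : ℝ) := by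
    obtain ⟨n, G, hG, he⟩ := h4 k hk4
    refine he.trans ?_
    have : G.edgeSet.ncard ≤ invTuran k (cycleGraph 4) :=
      (isGreatest k hk1).2 ⟨n, G, (small_iff G k).2 hG, rfl⟩
    exact_mod_cast this
  rw [Real.norm_eq_abs, Real.norm_eq_abs, abs_of_nonneg hq0, abs_le]
  constructor <;> linarith

end Pool.Agent.Results.MP_9a04dc_co.InverseTuranFourCycle
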